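import Pool.Agent.Helper7.KT.St

set_option autoImplicit false

/-!
# Project KT (MP_5176ab_co), module GCT: edges with a centre
-/

namespace Pool.Agent.Helper30.KT

open Finset SimpleGraph Filter Topology
open EX Pool.Agent.Helper7.KT

open scoped Classical

/-- **GCT**. -/
theorem hGCT : StGCT := by
  intro V _ Γ k H C hH
  have hsub : (H.filter fun E => Ce Γ C E) ⊆
      ((powersetCard k (univ.filter fun v => ∃ c ∈ C, Γ.Adj c v)).sigma
        (fun x => An Γ H C x)).image (fun p => insert p.2 p.1) := by
    intro E hE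
    rw [mem_filter] at hE
    obtain ⟨hEH, c, hcC, hcE, hadj⟩ := hE
    rw [mem_image]
    refine ⟨⟨E.erase c, c⟩, ?_, Finset.insert_erase hcE⟩
    rw [mem_sigma, mem_powersetCard]
    refine ⟨⟨?_, ?_⟩, ?_⟩
    · intro v hv
      rw [mem_erase] at hv
      rw [mem_filter]
      exact ⟨mem_univ _, c, hcC, hadj v hv.2 hv.1⟩
    · change (E.erase c).card = k
      rw [card_erase_of_mem hcE, hH E hEH]
      rfl
    · change c ∈ An Γ H C (E.erase c)
      simp only [An, mem_filter]
      refine ⟨hcC, Finset.notMem_erase c E, ?_, ?_⟩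
      · rw [Finset.insert_erase hcE]
        exact hEH
      · intro v hv
        rw [mem_erase] at hv
        exact hadj v hv.2 hv.1
  calc (H.filter fun E => Ce Γ C E).card ≤ _ := card_le_card hsub
    _ ≤ ((powersetCard k (univ.filter fun v => ∃ c ∈ C, Γ.Adj c v)).sigma
        (fun x => An Γ H C x)).card := card_image_le
    _ = ∑ x ∈ powersetCard k (univ.filter fun v => ∃ c ∈ C, Γ.Adj c v), (An Γ H C x).card :=
        card_sigma _ _

end Pool.Agent.Helper30.KT
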